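import Pool.Agent.H375R3.Box.Geo

set_option autoImplicit false
open scoped Pointwise

namespace H375.Box

/-- extension by zero along `e` -/
def extHom {m d : ℕ} (e : Fin m → Fin d) : (Fin m → ℤ) →+ (Fin d → ℤ) where
  toFun c := ∑ i, Pi.single (e i) (c i)
  map_zero' := by simp
  map_add' a b := by
    simp only [Pi.add_apply, Pi.single_add, Finset.sum_add_distrib]

theorem extHom_apply {m d : ℕ} (e : Fin m → Fin d) (c : Fin m → ℤ) (j : Fin d) :
    extHom e c j = ∑ i, if j = e i then c i else 0 := by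
  show (∑ i, Pi.single (e i) (c i) : Fin d → ℤ) j = _
  rw [Finset.sum_apply]
  apply Finset.sum_congr rfl
  intro i _
  rw [Pi.single_apply]

theorem extHom_eq {m d : ℕ} (e : Fin m → Fin d) (he : Function.Injective e) (y : Fin d → ℤ)
    (hy : ∀ j, (∀ i, e i ≠ j) → y j = 0) : extHom e (fun i => y (e i)) = y := by
  funext j
  rw [extHom_apply]
  by_cases h : ∃ i, e i = j
  · obtain ⟨i, rfl⟩ := h
    rw [Finset.sum_eq_single i]
    · simp
    · intro k _ hk
      rw [if_neg]
      intro h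
      exact hk (he h).symm
    · simp
  · push Not at h
    rw [hy j h]
    apply Finset.sum_eq_zero
    intro i _
    rw [if_neg]
    intro h'
    exact h i h'.symm

theorem box_pfr {d : ℕ} {D : Finset (Fin d → ℤ)} (hD : BoxClosed D) (hne : D.Nonempty) {K : ℝ}
    (hK : ((D + D).card : ℝ) ≤ K * D.card) (hK1 : 1 ≤ K) :
    ∃ (m : ℕ) (h : Fin m → ℕ) (e : Fin m → Fin d) (T : Finset (Fin d → ℤ)),
      (2 : ℝ) ^ m ≤ 2 * K ∧ ∏ i, (2 * h i + 1) ≤ D.card ∧ (T.card : ℝ) ≤ 1024 * K ^ 10 ∧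
      ∀ a ∈ D, ∃ t ∈ T, ∃ c : Fin m → ℤ, (∀ i, |c i| ≤ h i) ∧ a = t + extHom e c := by
  classical
  obtain ⟨x, hx, hsupp, hbig⟩ := exists_box hD hne hK hK1
  have hK0 : 0 < K := by linarith
  obtain ⟨B, hB⟩ : ∃ B : Finset (Fin d → ℤ),
    B = Finset.Icc (fun i => min 0 (x i)) (fun i => max 0 (x i)) := ⟨_, rfl⟩
  have hBmem : ∀ y, y ∈ B ↔ ∀ i, min 0 (x i) ≤ y i ∧ y i ≤ max 0 (x i) := by
    intro y
    rw [hB, Finset.mem_Icc, Pi.le_def, Pi.le_def]
    exact ⟨fun h i => ⟨h.1 i, h.2 i⟩, fun h => ⟨fun i => (h i).1, fun i => (h i).2⟩⟩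
  have hBD : B ⊆ D := fun y hy => hD x hx y ((hBmem y).1 hy)
  have hBne : B.Nonempty := ⟨0, (hBmem 0).2 fun i => by simp⟩
  have hBcard : B.card = bx x := by
    rw [hB, Pi.card_Icc]
    unfold bx
    apply Finset.prod_congr rfl
    intro i _
    rw [Int.card_Icc]
    omega
  have hcov : ((D + B).card : ℝ) ≤ (256 * K ^ 8) * B.card := by
    calc ((D + B).card : ℝ) ≤ (D + D).card := by
          exact_mod_cast Finset.card_le_card (Finset.add_subset_add_left hBD)
      _ ≤ K * D.card := hK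
      _ ≤ K * (256 * K ^ 7 * bx x) := by gcongr
      _ = (256 * K ^ 8) * B.card := by rw [hBcard]; ring
  obtain ⟨F, hFD, hF, hDF⟩ := Finset.ruzsa_covering_add hBne hcov
  obtain ⟨S, hS⟩ : ∃ S : Finset (Fin d → ℤ), S = Fintype.piFinset (fun j =>
    if x j = 0 then ({0} : Finset ℤ)
      else {-(2 * (((x j).natAbs / 2 : ℕ) : ℤ) + 1), 0, (2 * (((x j).natAbs / 2 : ℕ) : ℤ) + 1)}) :=
    ⟨_, rfl⟩
  have hScard : (S.card : ℝ) ≤ 4 * K ^ 2 := by
    have h1 : S.card ≤ 3 ^ (spt x).card := by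
      rw [hS, Fintype.card_piFinset]
      calc _ ≤ ∏ j, (if x j = 0 then 1 else 3) := by
            apply Finset.prod_le_prod'
            intro j _
            split_ifs with h
            · simp
            · exact Finset.card_le_three
        _ = _ := by
            rw [Finset.prod_ite]
            simp only [Finset.prod_const_one, one_mul, Finset.prod_const]
            rfl
    calc (S.card : ℝ) ≤ 3 ^ (spt x).card := by exact_mod_cast h1
      _ ≤ 4 ^ (spt x).card := by gcongr; norm_num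
      _ = (2 ^ (spt x).card) ^ 2 := by rw [← pow_mul, mul_comm, pow_mul]; norm_num
      _ ≤ (2 * K) ^ 2 := by gcongr
      _ = 4 * K ^ 2 := by ring
  obtain ⟨ee, hee⟩ : ∃ ee : Fin (spt x).card ≃ spt x, ee = (spt x).equivFin.symm := ⟨_, rfl⟩
  obtain ⟨e, he⟩ : ∃ e : Fin (spt x).card → Fin d, e = fun i => (ee i : Fin d) := ⟨_, rfl⟩
  have heinj : Function.Injective e := by
    rw [he]; intro i j h; exact ee.injective (Subtype.ext h)
  have heout : ∀ j, (∀ i, e i ≠ j) → x j = 0 := by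
    intro j hj
    by_contra h
    have hm : j ∈ spt x := mem_spt.2 h
    apply hj (ee.symm ⟨j, hm⟩)
    rw [he]; simp
  have hein : ∀ i, x (e i) ≠ 0 := by
    intro i
    rw [he]
    exact mem_spt.1 (ee i).2
  refine ⟨(spt x).card, fun i => (x (e i)).natAbs / 2, e, F + S, hsupp, ?_, ?_, ?_⟩
  · calc ∏ i, (2 * ((x (e i)).natAbs / 2) + 1) ≤ ∏ i, ((x (e i)).natAbs + 1) := by
          apply Finset.prod_le_prod'
          intro i _
          omega
      _ = bx x := by
          unfold bx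
          rw [← Finset.prod_subset (Finset.subset_univ (spt x))]
          · rw [← Finset.prod_coe_sort (spt x)]
            rw [← Equiv.prod_comp ee]
            rw [he]
          · intro j _ hj
            rw [mem_spt, not_not] at hj
            rw [hj]; rfl
      _ = B.card := hBcard.symm
      _ ≤ D.card := Finset.card_le_card hBD
  · calc ((F + S).card : ℝ) ≤ F.card * S.card := by exact_mod_cast Finset.card_add_le
      _ ≤ (256 * K ^ 8) * (4 * K ^ 2) := by gcongr
      _ = 1024 * K ^ 10 := by ring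
  · intro a ha
    obtain ⟨f, hf, z, hz, rfl⟩ := Finset.mem_add.1 (hDF ha)
    obtain ⟨b, hb, b', hb', rfl⟩ := Finset.mem_sub.1 hz
    obtain ⟨y, hy⟩ : ∃ y, y = b - b' := ⟨_, rfl⟩
    have hyx : ∀ j, |y j| ≤ |x j| := by
      intro j
      have h1 := (hBmem b).1 hb j
      have h2 := (hBmem b').1 hb' j
      rw [hy]
      simp only [Pi.sub_apply]
      rw [abs_le]
      rcases abs_cases (x j) with ⟨h3, h4⟩ | ⟨h3, h4⟩ <;> omega
    obtain ⟨s, hs⟩ : ∃ s : Fin d → ℤ, s = fun j => if x j = 0 then 0 else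
      if (((x j).natAbs / 2 : ℕ) : ℤ) < y j then (2 * (((x j).natAbs / 2 : ℕ) : ℤ) + 1) else
      if y j < -(((x j).natAbs / 2 : ℕ) : ℤ) then -(2 * (((x j).natAbs / 2 : ℕ) : ℤ) + 1) else 0 :=
      ⟨_, rfl⟩
    have hsS : s ∈ S := by
      rw [hS, Fintype.mem_piFinset]
      intro j
      rw [hs]
      by_cases h0 : x j = 0
      · simp [h0]
      · simp only [h0, if_false]
        split_ifs <;> simp
    refine ⟨f + s, Finset.add_mem_add hf hsS, fun i => (y - s) (e i), ?_, ?_⟩
    · intro i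
      have h1 := hyx (e i)
      have h2 := hein i
      rw [hs]
      simp only [Pi.sub_apply, h2, if_false]
      rw [abs_le] at h1 ⊢
      have h5 : (((x (e i)).natAbs : ℕ) : ℤ) = |x (e i)| := Int.natCast_natAbs _
      split_ifs <;> constructor <;> omega
    · rw [extHom_eq e heinj (y - s)]
      · rw [← hy]; abel
      · intro j hj
        have h0 := heout j hj
        have h1 := hyx j
        rw [h0, abs_zero] at h1
        have h2 : y j = 0 := abs_eq_zero.1 (le_antisymm h1 (abs_nonneg _))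
        rw [Pi.sub_apply, h2, hs]
        simp [h0]

/-- the closed box of half-widths `h i + 1/2` -/
def body {m : ℕ} (h : Fin m → ℕ) : Set (Fin m → ℝ) := {x | ∀ i, |x i| ≤ h i + 1 / 2}

theorem body_eq {m : ℕ} (h : Fin m → ℕ) :
    body h = Set.Icc (fun i => -((h i : ℝ) + 1 / 2)) (fun i => (h i : ℝ) + 1 / 2) := by
  ext x
  simp only [body, Set.mem_setOf_eq, Set.mem_Icc, Pi.le_def, abs_le]
  exact ⟨fun h => ⟨fun i => (h i).1, fun i => (h i).2⟩, fun h i => ⟨h.1 i, h.2 i⟩⟩

theorem mem_body {m : ℕ} (h : Fin m → ℕ) (c : Fin m → ℤ) :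
    (fun i => (c i : ℝ)) ∈ body h ↔ ∀ i, |c i| ≤ h i := by
  simp only [body, Set.mem_setOf_eq]
  apply forall_congr'
  intro i
  rw [← Int.cast_abs]
  constructor
  · intro h1
    have : ((|c i| : ℤ) : ℝ) < ((h i + 1 : ℤ) : ℝ) := by push_cast; push_cast at h1; linarith
    have := Int.cast_lt.1 this
    omega
  · intro h1
    have : ((|c i| : ℤ) : ℝ) ≤ ((h i : ℤ) : ℝ) := by exact_mod_cast h1
    push_cast at this ⊢
    linarith

theorem body_ncard {m : ℕ} (h : Fin m → ℕ) :
    {c : Fin m → ℤ | (fun i => (c i : ℝ)) ∈ body h}.ncard = ∏ i, (2 * h i + 1) := by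
  have h1 : {c : Fin m → ℤ | (fun i => (c i : ℝ)) ∈ body h} =
      ((Fintype.piFinset fun i => Finset.Icc (-(h i : ℤ)) (h i) : Finset (Fin m → ℤ)) :
        Set (Fin m → ℤ)) := by
    ext c
    rw [Set.mem_setOf_eq, mem_body, Finset.mem_coe, Fintype.mem_piFinset]
    simp only [Finset.mem_Icc, abs_le]
  rw [h1, Set.ncard_coe_finset, Fintype.card_piFinset]
  apply Finset.prod_congr rfl
  intro i _
  rw [Int.card_Icc]
  omega

theorem body_interior {m : ℕ} (h : Fin m → ℕ) : (interior (body h)).Nonempty := by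
  refine ⟨0, ?_⟩
  rw [mem_interior]
  refine ⟨{x | ∀ i, |x i| < 1 / 2}, ?_, ?_, ?_⟩
  · intro x hx i
    have h1 : |x i| < 1 / 2 := hx i
    have h0 : (0 : ℝ) ≤ h i := Nat.cast_nonneg _
    show |x i| ≤ (h i : ℝ) + 1 / 2
    linarith
  · have : {x : Fin m → ℝ | ∀ i, |x i| < 1 / 2} = ⋂ i, {x : Fin m → ℝ | |x i| < 1 / 2} := by
      ext x; simp
    rw [this]
    apply isOpen_iInter_of_finite
    intro i
    exact isOpen_lt (continuous_abs.comp (continuous_apply i)) continuous_const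
  · intro i
    simp

theorem final {Γ : Type*} [AddCommGroup Γ] [DecidableEq Γ] {d : ℕ} {D : Finset (Fin d → ℤ)}
    (hne : D.Nonempty) (hD : BoxClosed D) (x₀ : Γ) (ψ : (Fin d → ℤ) →+ Γ)
    (hinj : Set.InjOn ψ ((D + D : Finset (Fin d → ℤ)) : Set (Fin d → ℤ))) (K : ℝ) (A : Finset Γ)
    (hA : A = D.image (fun x => x₀ + ψ x)) (hK : ((A + A).card : ℝ) ≤ K * A.card) :
    ∃ (m : ℕ) (B : Set (Fin m → ℝ)) (φ : (Fin m → ℤ) →+ Γ) (T : Finset Γ),
      (m : ℝ) ≤ 2 * Real.log (2 * K) ∧
      Convex ℝ B ∧ IsCompact B ∧ (interior B).Nonempty ∧ (∀ x ∈ B, -x ∈ B) ∧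
      {x : Fin m → ℤ | (fun i => (x i : ℝ)) ∈ B}.ncard ≤ A.card ∧
      (T.card : ℝ) ≤ 1024 * K ^ 10 ∧
      ∀ a ∈ A, ∃ t ∈ T, ∃ x : Fin m → ℤ, (fun i => (x i : ℝ)) ∈ B ∧ a = t + φ x := by
  have h0 : (0 : Fin d → ℤ) ∈ D := by
    obtain ⟨x, hx⟩ := hne
    exact hD x hx 0 fun i => by simp
  have hsub : D ⊆ D + D := fun x hx => by
    have := Finset.add_mem_add hx h0
    rwa [add_zero] at this
  have hc1 : A.card = D.card := by
    rw [hA]
    apply Finset.card_image_of_injOn
    intro x hx y hy h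
    exact hinj (hsub hx) (hsub hy) (add_left_cancel h)
  have hc2 : (A + A).card = (D + D).card := by
    have : A + A = (D + D).image (fun x => (x₀ + x₀) + ψ x) := by
      ext z
      rw [hA]
      constructor
      · intro hz
        obtain ⟨a, ha, b, hb, rfl⟩ := Finset.mem_add.1 hz
        obtain ⟨x, hx, rfl⟩ := Finset.mem_image.1 ha
        obtain ⟨y, hy, rfl⟩ := Finset.mem_image.1 hb
        refine Finset.mem_image.2 ⟨x + y, Finset.add_mem_add hx hy, ?_⟩
        rw [map_add]; abel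
      · intro hz
        obtain ⟨v, hv, rfl⟩ := Finset.mem_image.1 hz
        obtain ⟨x, hx, y, hy, rfl⟩ := Finset.mem_add.1 hv
        have := Finset.add_mem_add (Finset.mem_image_of_mem (fun x => x₀ + ψ x) hx)
          (Finset.mem_image_of_mem (fun x => x₀ + ψ x) hy)
        rw [map_add]
        convert this using 1
        abel
    rw [this]
    apply Finset.card_image_of_injOn
    intro x hx y hy h
    exact hinj hx hy (add_left_cancel h)
  rw [hc1, hc2] at hK
  have hK1 : 1 ≤ K := by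
    have hc : (0 : ℝ) < D.card := by exact_mod_cast hne.card_pos
    have h1 : (D.card : ℝ) ≤ (D + D).card := by
      exact_mod_cast Finset.card_le_card_add_right hne
    nlinarith
  obtain ⟨m, h, e, T, hm, hvol, hT, hcov⟩ := box_pfr hD hne hK hK1
  refine ⟨m, body h, ψ.comp (extHom e), T.image (fun t => x₀ + ψ t), ?_, ?_, ?_, ?_, ?_, ?_, ?_, ?_⟩
  · have h1 : (m : ℝ) * Real.log 2 ≤ Real.log (2 * K) := by
      rw [← Real.log_pow]
      exact Real.log_le_log (by positivity) hm
    have h2 : (1 / 2 : ℝ) < Real.log 2 := by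
      have := Real.log_two_gt_d9
      linarith
    have h3 : (0 : ℝ) ≤ m := Nat.cast_nonneg m
    nlinarith
  · rw [body_eq]; exact convex_Icc _ _
  · rw [body_eq]; exact isCompact_Icc
  · exact body_interior h
  · intro x hx i
    have := hx i
    simp only [Pi.neg_apply, abs_neg]
    exact this
  · rw [body_ncard, hc1]; exact hvol
  · refine le_trans ?_ hT
    exact_mod_cast Finset.card_image_le
  · intro a ha
    rw [hA] at ha
    obtain ⟨y, hy, rfl⟩ := Finset.mem_image.1 ha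
    obtain ⟨t, ht, c, hc, rfl⟩ := hcov y hy
    refine ⟨x₀ + ψ t, Finset.mem_image_of_mem _ ht, c, (mem_body h c).2 hc, ?_⟩
    rw [map_add, AddMonoidHom.comp_apply]
    abel

end H375.Box
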