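import Pool.Agent.H375R3.Box.Wt

set_option autoImplicit false
open scoped Pointwise

namespace H375.Box

/-- with every point `x` the set contains every integer point of the box spanned by `0` and `x` -/
def BoxClosed {d : ℕ} (D : Finset (Fin d → ℤ)) : Prop :=
  ∀ x ∈ D, ∀ y : Fin d → ℤ, (∀ i, min 0 (x i) ≤ y i ∧ y i ≤ max 0 (x i)) → y ∈ D

/-- support -/
def spt {d : ℕ} (x : Fin d → ℤ) : Finset (Fin d) := Finset.univ.filter (fun i => x i ≠ 0)

theorem mem_spt {d : ℕ} {x : Fin d → ℤ} {i : Fin d} : i ∈ spt x ↔ x i ≠ 0 := by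
  simp [spt]

theorem sum_two_pow {d : ℕ} {D : Finset (Fin d → ℤ)} (hD : BoxClosed D) :
    ∑ x ∈ D, 2 ^ (spt x).card ≤ (D + D).card := by
  classical
  have h1 : (D.sigma (fun x => (spt x).powerset)).card = ∑ x ∈ D, 2 ^ (spt x).card := by
    rw [Finset.card_sigma]
    simp
  rw [← h1]
  apply Finset.card_le_card_of_injOn
    (fun p : (Σ _ : Fin d → ℤ, Finset (Fin d)) =>
      (fun i => 2 * p.1 i - (if i ∈ p.2 then (p.1 i).sign else 0) : Fin d → ℤ))
  · rintro ⟨x, s⟩ hp
    rw [Finset.mem_coe, Finset.mem_sigma, Finset.mem_powerset] at hp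
    replace hp : x ∈ D ∧ s ⊆ spt x := hp
    have hy : (fun i => x i - (if i ∈ s then (x i).sign else 0) : Fin d → ℤ) ∈ D := by
      apply hD x hp.1
      intro i
      split_ifs with h
      · rcases lt_trichotomy (x i) 0 with h0 | h0 | h0
        · rw [Int.sign_eq_neg_one_of_neg h0]; omega
        · rw [h0]; simp
        · rw [Int.sign_eq_one_of_pos h0]; omega
      · omega
    have : (fun i => 2 * x i - (if i ∈ s then (x i).sign else 0) : Fin d → ℤ) =
        x + (fun i => x i - (if i ∈ s then (x i).sign else 0) : Fin d → ℤ) := by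
      funext i
      simp only [Pi.add_apply]
      ring
    simp only
    rw [this]
    exact_mod_cast Finset.add_mem_add hp.1 hy
  · rintro ⟨x, s⟩ hp ⟨y, t⟩ hq h
    rw [Finset.mem_coe, Finset.mem_sigma, Finset.mem_powerset] at hp hq
    replace hp : x ∈ D ∧ s ⊆ spt x := hp
    replace hq : y ∈ D ∧ t ⊆ spt y := hq
    replace h : (fun i => 2 * x i - (if i ∈ s then (x i).sign else 0) : Fin d → ℤ) =
      (fun i => 2 * y i - (if i ∈ t then (y i).sign else 0) : Fin d → ℤ) := h
    have hi : ∀ i, x i = y i ∧ (i ∈ s ↔ i ∈ t) := by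
      intro i
      have hh := congrFun h i
      have hs : i ∈ s → x i ≠ 0 := fun h => mem_spt.1 (hp.2 h)
      have ht : i ∈ t → y i ≠ 0 := fun h => mem_spt.1 (hq.2 h)
      by_cases hs1 : i ∈ s <;> by_cases ht1 : i ∈ t
      · have a := hs hs1
        have b := ht ht1
        rw [if_pos hs1, if_pos ht1] at hh
        refine ⟨?_, iff_of_true hs1 ht1⟩
        rcases lt_or_gt_of_ne a with a | a <;> rcases lt_or_gt_of_ne b with b | b <;>
          simp only [Int.sign_eq_neg_one_of_neg, Int.sign_eq_one_of_pos, a, b] at hh <;> omega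
      · have a := hs hs1
        rw [if_pos hs1, if_neg ht1] at hh
        exfalso
        rcases lt_or_gt_of_ne a with a | a <;>
          simp only [Int.sign_eq_neg_one_of_neg, Int.sign_eq_one_of_pos, a] at hh <;> omega
      · have b := ht ht1
        rw [if_neg hs1, if_pos ht1] at hh
        exfalso
        rcases lt_or_gt_of_ne b with b | b <;>
          simp only [Int.sign_eq_neg_one_of_neg, Int.sign_eq_one_of_pos, b] at hh <;> omega
      · rw [if_neg hs1, if_neg ht1] at hh
        exact ⟨by omega, iff_of_false hs1 ht1⟩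
    have hxy : x = y := funext fun i => (hi i).1
    have hst : s = t := Finset.ext fun i => (hi i).2
    subst hxy; subst hst
    rfl

/-- sign pattern `σ` (the set of coordinates allowed to be negative) is compatible with `x` -/
def Comp {d : ℕ} (σ : Finset (Fin d)) (x : Fin d → ℤ) : Prop :=
  ∀ i, (i ∈ σ → x i ≤ 0) ∧ (i ∉ σ → 0 ≤ x i)

theorem comp_count {d : ℕ} (x : Fin d → ℤ) [DecidablePred (fun σ : Finset (Fin d) => Comp σ x)] :
    2 ^ d ≤ 2 ^ (spt x).card * (Finset.univ.filter (fun σ : Finset (Fin d) => Comp σ x)).card := by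
  classical
  have hc : (spt x).card + (spt x)ᶜ.card = d := by
    rw [Finset.card_add_card_compl, Fintype.card_fin]
  have h1 : ((spt x)ᶜ.powerset).card ≤
      (Finset.univ.filter (fun σ : Finset (Fin d) => Comp σ x)).card := by
    apply Finset.card_le_card_of_injOn
      (fun s => s ∪ Finset.univ.filter (fun i => x i < 0))
    · intro s hs
      rw [Finset.mem_coe, Finset.mem_powerset] at hs
      simp only [Finset.coe_filter, Finset.mem_univ, true_and, Set.mem_setOf_eq]
      intro i
      constructor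
      · intro hi
        rw [Finset.mem_union] at hi
        rcases hi with hi | hi
        · have := hs hi
          rw [Finset.mem_compl, mem_spt] at this
          omega
        · have := (Finset.mem_filter.1 hi).2
          omega
      · intro hi
        rw [Finset.mem_union, not_or] at hi
        have h2 := hi.2
        simp only [Finset.mem_filter, Finset.mem_univ, true_and, not_lt] at h2
        exact h2
    · intro s hs t ht h
      rw [Finset.mem_coe, Finset.mem_powerset] at hs ht
      ext i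
      have h3 := Finset.ext_iff.1 h i
      simp only [Finset.mem_union, Finset.mem_filter, Finset.mem_univ, true_and] at h3
      constructor
      · intro hi
        have := hs hi
        rw [Finset.mem_compl, mem_spt, not_not] at this
        rcases h3.1 (Or.inl hi) with h4 | h4
        · exact h4
        · omega
      · intro hi
        have := ht hi
        rw [Finset.mem_compl, mem_spt, not_not] at this
        rcases h3.2 (Or.inl hi) with h4 | h4
        · exact h4
        · omega
  rw [Finset.card_powerset] at h1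
  calc 2 ^ d = 2 ^ (spt x).card * 2 ^ (spt x)ᶜ.card := by rw [← pow_add, hc]
    _ ≤ _ := Nat.mul_le_mul_left _ h1

/-- size of the box spanned by `0` and `x` -/
def bx {d : ℕ} (x : Fin d → ℤ) : ℕ := ∏ i, ((x i).natAbs + 1)

theorem w_ge (n : ℕ) : (if n = 0 then (1 : ℝ) else 1 / 3) * (1 / √((n + 1 : ℕ) : ℝ)) ≤ w n := by
  unfold w
  split_ifs with h
  · subst h; simp
  · have h1 : (0 : ℝ) < n := by exact_mod_cast Nat.pos_of_ne_zero h
    have h2 : √(n : ℝ) ≤ √((n + 1 : ℕ) : ℝ) := Real.sqrt_le_sqrt (by push_cast; linarith)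
    have h3 : 0 < √(n : ℝ) := Real.sqrt_pos.2 h1
    rw [div_mul_div_comm, one_mul]
    gcongr

theorem prod_w_ge {d : ℕ} (x : Fin d → ℤ) :
    (1 / 3 : ℝ) ^ (spt x).card * (1 / √((bx x : ℕ) : ℝ)) ≤ ∏ i, w (x i).natAbs := by
  have h1 : (1 / 3 : ℝ) ^ (spt x).card * (1 / √((bx x : ℕ) : ℝ)) =
      ∏ i, ((if (x i).natAbs = 0 then (1 : ℝ) else 1 / 3) *
        (1 / √(((x i).natAbs + 1 : ℕ) : ℝ))) := by
    rw [Finset.prod_mul_distrib]
    congr 1
    · rw [Finset.prod_ite]
      simp only [Finset.prod_const_one, one_mul, Finset.prod_const]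
      congr 1
      unfold spt
      congr 1
      ext i
      simp
    · unfold bx
      rw [Finset.prod_div_distrib, Finset.prod_const_one]
      congr 1
      push_cast
      rw [Real.sqrt_prod]
      intro i _
      positivity
  rw [h1]
  apply Finset.prod_le_prod
  · intro i _
    split_ifs <;> positivity
  · intro i _
    exact w_ge _

/-- the key extraction: one box of size at least `|D| / (256 K^7)` -/
theorem exists_box {d : ℕ} {D : Finset (Fin d → ℤ)} (hD : BoxClosed D) (hne : D.Nonempty) {K : ℝ}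
    (hK : ((D + D).card : ℝ) ≤ K * D.card) (hK1 : 1 ≤ K) :
    ∃ x ∈ D, (2 : ℝ) ^ (spt x).card ≤ 2 * K ∧ (D.card : ℝ) ≤ 256 * K ^ 7 * bx x := by
  classical
  have hDpos : (0 : ℝ) < D.card := by exact_mod_cast hne.card_pos
  have hK0 : 0 < K := by linarith
  -- points of small support
  obtain ⟨D', hD'⟩ : ∃ D', D' = D.filter (fun x => (2 : ℝ) ^ (spt x).card ≤ 2 * K) := ⟨_, rfl⟩
  have hhalf : (D.card : ℝ) ≤ 2 * D'.card := by
    have h1 : (∑ x ∈ D, (2 : ℝ) ^ (spt x).card) ≤ K * D.card := by
      refine le_trans ?_ hK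
      have := sum_two_pow hD
      exact_mod_cast this
    have h2 : ∑ x ∈ D.filter (fun x => ¬ (2 : ℝ) ^ (spt x).card ≤ 2 * K), (2 * K) ≤
        ∑ x ∈ D, (2 : ℝ) ^ (spt x).card := by
      refine le_trans (Finset.sum_le_sum (g := fun x => (2 : ℝ) ^ (spt x).card) ?_) ?_
      · intro x hx
        exact (not_le.1 (Finset.mem_filter.1 hx).2).le
      · exact Finset.sum_le_sum_of_subset_of_nonneg (Finset.filter_subset _ _)
          fun x _ _ => by positivity
    rw [Finset.sum_const, nsmul_eq_mul] at h2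
    have h3 : ((D.filter (fun x => (2 : ℝ) ^ (spt x).card ≤ 2 * K)).card : ℝ) +
        (D.filter (fun x => ¬ (2 : ℝ) ^ (spt x).card ≤ 2 * K)).card = D.card := by
      exact_mod_cast Finset.card_filter_add_card_filter_not _
    rw [← hD'] at h3
    have h4 : ((D.filter (fun x => ¬ (2 : ℝ) ^ (spt x).card ≤ 2 * K)).card : ℝ) * 2 ≤ D.card := by
      have h5 : ((D.filter (fun x => ¬ (2 : ℝ) ^ (spt x).card ≤ 2 * K)).card : ℝ) * (2 * K) ≤
        K * D.card := h2.trans h1
      have h6 : K * (((D.filter (fun x => ¬ (2 : ℝ) ^ (spt x).card ≤ 2 * K)).card : ℝ) * 2) ≤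
        K * D.card := by linarith
      exact le_of_mul_le_mul_left h6 hK0
    linarith
  -- one orthant
  obtain ⟨σ, hσ⟩ : ∃ σ : Finset (Fin d), (D'.card : ℝ) ≤
      2 * K * (D'.filter (fun x => Comp σ x)).card := by
    by_contra hcon
    push Not at hcon
    have h1 : ∑ σ : Finset (Fin d), (D'.card : ℝ) >
        ∑ σ : Finset (Fin d), 2 * K * (D'.filter (fun x => Comp σ x)).card :=
      Finset.sum_lt_sum_of_nonempty Finset.univ_nonempty fun σ _ => hcon σ
    have h2 : ∑ σ : Finset (Fin d), ((D'.filter (fun x => Comp σ x)).card : ℝ) =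
        ∑ x ∈ D', ((Finset.univ.filter (fun σ : Finset (Fin d) => Comp σ x)).card : ℝ) := by
      have : ∑ σ : Finset (Fin d), (D'.filter (fun x => Comp σ x)).card =
        ∑ x ∈ D', (Finset.univ.filter (fun σ : Finset (Fin d) => Comp σ x)).card := by
        simp only [Finset.card_filter]
        exact Finset.sum_comm
      exact_mod_cast this
    rw [← Finset.mul_sum, h2, Finset.sum_const, Finset.card_univ, Fintype.card_finset,
      Fintype.card_fin, nsmul_eq_mul] at h1
    have h3 : ∀ x ∈ D', (2 : ℝ) ^ d ≤ 2 * K *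
        ((Finset.univ.filter (fun σ : Finset (Fin d) => Comp σ x)).card : ℝ) := by
      intro x hx
      have hx2 : (2 : ℝ) ^ (spt x).card ≤ 2 * K := by
        rw [hD'] at hx; exact (Finset.mem_filter.1 hx).2
      have h4 : (2 : ℝ) ^ d ≤ 2 ^ (spt x).card *
        ((Finset.univ.filter (fun σ : Finset (Fin d) => Comp σ x)).card : ℝ) := by
        exact_mod_cast comp_count x
      exact h4.trans (mul_le_mul_of_nonneg_right hx2 (Nat.cast_nonneg _))
    have h5 := Finset.sum_le_sum h3
    rw [Finset.sum_const, nsmul_eq_mul, ← Finset.mul_sum] at h5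
    push_cast at h1
    linarith [h1, h5, mul_comm (2 ^ d : ℝ) (D'.card : ℝ)]
  obtain ⟨E, hE⟩ : ∃ E, E = D'.filter (fun x => Comp σ x) := ⟨_, rfl⟩
  rw [← hE] at hσ
  have hED : E ⊆ D := by
    rw [hE, hD']
    exact (Finset.filter_subset _ _).trans (Finset.filter_subset _ _)
  have hEcard : (D.card : ℝ) ≤ 4 * K * E.card := by linarith
  have hEne : E.Nonempty := by
    rw [← Finset.card_pos]
    by_contra h
    have : E.card = 0 := by omega
    rw [this, Nat.cast_zero, mul_zero] at hEcard
    linarith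
  have hEcomp : ∀ x ∈ E, Comp σ x := fun x hx => by
    rw [hE] at hx; exact (Finset.mem_filter.1 hx).2
  have hEsupp : ∀ x ∈ E, (2 : ℝ) ^ (spt x).card ≤ 2 * K := fun x hx => by
    rw [hE, hD'] at hx; exact (Finset.mem_filter.1 (Finset.mem_filter.1 hx).1).2
  -- the set of absolute values
  obtain ⟨N, hN⟩ : ∃ N : Finset (Fin d → ℕ), N = E.image (fun x i => (x i).natAbs) := ⟨_, rfl⟩
  have hsg : ∀ x, Comp σ x → ∀ i, x i = (if i ∈ σ then -1 else 1) * ((x i).natAbs : ℤ) := by
    intro x hx i
    have := hx i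
    split_ifs with h
    · have := this.1 h; omega
    · have := this.2 h; omega
  have hinjE : Set.InjOn (fun (x : Fin d → ℤ) (i : Fin d) => (x i).natAbs) (E : Set (Fin d → ℤ)) := by
    intro x hx y hy h
    funext i
    rw [hsg x (hEcomp x hx) i, hsg y (hEcomp y hy) i]
    have := congrFun h i
    simp only at this
    rw [this]
  have hNN : ((N + N).card : ℝ) ≤ K * D.card := by
    refine le_trans ?_ hK
    have : (N + N).card ≤ (D + D).card := by
      apply Finset.card_le_card_of_injOn
        (fun z i => (if i ∈ σ then -1 else 1) * (z i : ℤ))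
      · intro z hz
        rw [Finset.mem_coe] at hz
        obtain ⟨a, ha, b, hb, rfl⟩ := Finset.mem_add.1 hz
        rw [hN] at ha hb
        obtain ⟨x, hx, rfl⟩ := Finset.mem_image.1 ha
        obtain ⟨y, hy, rfl⟩ := Finset.mem_image.1 hb
        have : (fun i => (if i ∈ σ then -1 else 1) *
            ((((fun i => (x i).natAbs) + (fun i => (y i).natAbs) : Fin d → ℕ) i : ℕ) : ℤ)) = x + y := by
          funext i
          simp only [Pi.add_apply]
          conv_rhs => rw [hsg x (hEcomp x hx) i, hsg y (hEcomp y hy) i]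
          push_cast
          ring
        simp only at this ⊢
        rw [this]
        exact_mod_cast Finset.add_mem_add (hED hx) (hED hy)
      · intro z _ z' _ h
        funext i
        have := congrFun h i
        simp only at this
        split_ifs at this <;> omega
    exact_mod_cast this
  -- the largest box
  obtain ⟨x, hx, hmax⟩ := Finset.exists_max_image E bx hEne
  refine ⟨x, hED hx, hEsupp x hx, ?_⟩
  have hbpos : ∀ y : Fin d → ℤ, (0 : ℝ) < bx y := by
    intro y
    unfold bx
    exact_mod_cast Finset.prod_pos fun i _ => by positivity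
  have hsumge : (E.card : ℝ) * ((1 / (2 * K) ^ 2) * (1 / √(bx x : ℝ))) ≤
      ∑ z ∈ N, ∏ i, w (z i) := by
    rw [hN, Finset.sum_image hinjE, ← nsmul_eq_mul, ← Finset.sum_const]
    apply Finset.sum_le_sum
    intro y hy
    refine le_trans ?_ (prod_w_ge y)
    have h1 : 1 / (2 * K) ^ 2 ≤ (1 / 3 : ℝ) ^ (spt y).card := by
      rw [one_div_pow]
      apply one_div_le_one_div_of_le (by positivity)
      calc (3 : ℝ) ^ (spt y).card ≤ 4 ^ (spt y).card := by gcongr; norm_num
        _ = (2 ^ (spt y).card) ^ 2 := by rw [← pow_mul, mul_comm, pow_mul]; norm_num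
        _ ≤ (2 * K) ^ 2 := by
          have := hEsupp y hy
          gcongr
    have h2 : 1 / √(bx x : ℝ) ≤ 1 / √(bx y : ℝ) := by
      apply one_div_le_one_div_of_le (Real.sqrt_pos.2 (hbpos y))
      apply Real.sqrt_le_sqrt
      exact_mod_cast hmax y hy
    exact mul_le_mul h1 h2 (by positivity) (by positivity)
  have hmain := weight_sum_sq N
  have h7 : ((E.card : ℝ) * ((1 / (2 * K) ^ 2) * (1 / √(bx x : ℝ)))) ^ 2 ≤ K * D.card := by
    refine le_trans (pow_le_pow_left₀ (by positivity) hsumge 2) (hmain.trans hNN)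
  have hsq : √(bx x : ℝ) ^ 2 = bx x := Real.sq_sqrt (hbpos x).le
  have h8 : ((E.card : ℝ) * ((1 / (2 * K) ^ 2) * (1 / √(bx x : ℝ)))) ^ 2 =
      (E.card : ℝ) ^ 2 / (16 * K ^ 4 * bx x) := by
    have hs0 : √(bx x : ℝ) ≠ 0 := (Real.sqrt_pos.2 (hbpos x)).ne'
    obtain ⟨s, hs⟩ : ∃ s, s = √(bx x : ℝ) := ⟨_, rfl⟩
    obtain ⟨b, hb⟩ : ∃ b, b = (bx x : ℝ) := ⟨_, rfl⟩
    rw [← hs] at hs0 hsq ⊢
    rw [← hb] at hsq ⊢
    rw [← hsq]
    field_simp
    ring
  rw [h8, div_le_iff₀ (mul_pos (by positivity) (hbpos x))] at h7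
  have h9 : (D.card : ℝ) ^ 2 ≤ (4 * K * E.card) ^ 2 := by gcongr
  have h10 : (D.card : ℝ) * D.card ≤ D.card * (256 * K ^ 7 * bx x) := by
    calc (D.card : ℝ) * D.card = (D.card : ℝ) ^ 2 := by ring
      _ ≤ (4 * K * E.card) ^ 2 := h9
      _ = 16 * K ^ 2 * (E.card : ℝ) ^ 2 := by ring
      _ ≤ 16 * K ^ 2 * (K * D.card * (16 * K ^ 4 * bx x)) := by gcongr
      _ = D.card * (256 * K ^ 7 * bx x) := by ring
  exact le_of_mul_le_mul_left h10 hDpos

end H375.Box
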