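import Mathlib

set_option autoImplicit false
open scoped Pointwise

namespace H375.Box

/-- weight with convolution square at most one -/
noncomputable def w (n : ℕ) : ℝ := if n = 0 then 1 else 1 / (3 * √(n : ℝ))

theorem w_pos (n : ℕ) : 0 < w n := by
  unfold w
  split_ifs with h
  · norm_num
  · have : (0 : ℝ) < n := by exact_mod_cast Nat.pos_of_ne_zero h
    positivity

theorem sum_inv_sqrt (n : ℕ) : ∑ i ∈ Finset.range n, 1 / √((i : ℝ) + 1) ≤ 2 * √(n : ℝ) := by
  induction n with
  | zero => simp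
  | succ n ih =>
    rw [Finset.sum_range_succ]
    have h1 : (0 : ℝ) < √((n : ℝ) + 1) := Real.sqrt_pos.2 (by positivity)
    have h2 : 0 ≤ √(n : ℝ) := Real.sqrt_nonneg _
    have h3 : √((n : ℝ) + 1) ^ 2 = n + 1 := Real.sq_sqrt (by positivity)
    have h4 : √(n : ℝ) ^ 2 = n := Real.sq_sqrt (by positivity)
    have h5 : 1 / √((n : ℝ) + 1) ≤ 2 * √((n : ℝ) + 1) - 2 * √(n : ℝ) := by
      rw [div_le_iff₀ h1]
      nlinarith [sq_nonneg (√((n : ℝ) + 1) - √(n : ℝ))]
    push_cast
    linarith

theorem interior_sum (k : ℕ) : ∑ i ∈ Finset.range k, 1 / √(((i : ℝ) + 1) * ((k : ℝ) - i)) ≤ 4 := by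
  rcases Nat.eq_zero_or_pos k with rfl | hk
  · simp
  have hk' : (0 : ℝ) < k := by exact_mod_cast hk
  have hK : (0 : ℝ) < √((k : ℝ) + 1) := Real.sqrt_pos.2 (by positivity)
  have hterm : ∀ i ∈ Finset.range k, 1 / √(((i : ℝ) + 1) * ((k : ℝ) - i)) ≤
      (1 / √((k : ℝ) + 1)) * (1 / √((i : ℝ) + 1) + 1 / √((k : ℝ) - i)) := by
    intro i hi
    have hik : i < k := Finset.mem_range.1 hi
    have h1 : (0 : ℝ) < (i : ℝ) + 1 := by positivity
    have h2 : (0 : ℝ) < (k : ℝ) - i := by
      have : (i : ℝ) < k := by exact_mod_cast hik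
      linarith
    rw [Real.sqrt_mul h1.le]
    obtain ⟨a, ha⟩ : ∃ a, a = √((i : ℝ) + 1) := ⟨_, rfl⟩
    obtain ⟨b, hb⟩ : ∃ b, b = √((k : ℝ) - i) := ⟨_, rfl⟩
    obtain ⟨c, hc⟩ : ∃ c, c = √((k : ℝ) + 1) := ⟨_, rfl⟩
    have ha0 : 0 < a := by rw [ha]; exact Real.sqrt_pos.2 h1
    have hb0 : 0 < b := by rw [hb]; exact Real.sqrt_pos.2 h2
    have hc0 : 0 < c := by rw [hc]; exact hK
    have ha2 : a ^ 2 = i + 1 := by rw [ha]; exact Real.sq_sqrt h1.le
    have hb2 : b ^ 2 = k - i := by rw [hb]; exact Real.sq_sqrt h2.le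
    have hc2 : c ^ 2 = k + 1 := by rw [hc]; exact Real.sq_sqrt (by positivity)
    rw [← ha, ← hb, ← hc]
    have hcab : c ≤ a + b := by
      apply le_of_sq_le_sq _ (by positivity)
      nlinarith [mul_pos ha0 hb0]
    have e1 : (1 / c) * (1 / a + 1 / b) = (a + b) / (c * (a * b)) := by
      field_simp
      ring
    rw [e1, div_le_div_iff₀ (by positivity) (by positivity)]
    nlinarith [mul_pos ha0 hb0]
  have hs1 := sum_inv_sqrt k
  have hs2 : ∑ i ∈ Finset.range k, 1 / √((k : ℝ) - i) = ∑ i ∈ Finset.range k, 1 / √((i : ℝ) + 1) := by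
    rw [← Finset.sum_range_reflect]
    apply Finset.sum_congr rfl
    intro i hi
    have hik : i < k := Finset.mem_range.1 hi
    have : ((k - 1 - i : ℕ) : ℝ) = k - 1 - i := by
      rw [Nat.cast_sub (by omega), Nat.cast_sub (by omega)]
      simp
    rw [this]
    congr 2
    ring
  have hkk : √(k : ℝ) ≤ √((k : ℝ) + 1) := Real.sqrt_le_sqrt (by linarith)
  calc ∑ i ∈ Finset.range k, 1 / √(((i : ℝ) + 1) * ((k : ℝ) - i)) ≤
      ∑ i ∈ Finset.range k, (1 / √((k : ℝ) + 1)) * (1 / √((i : ℝ) + 1) + 1 / √((k : ℝ) - i)) :=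
        Finset.sum_le_sum hterm
    _ = (1 / √((k : ℝ) + 1)) * (2 * ∑ i ∈ Finset.range k, 1 / √((i : ℝ) + 1)) := by
        rw [← Finset.mul_sum, Finset.sum_add_distrib, hs2]; ring
    _ ≤ (1 / √((k : ℝ) + 1)) * (2 * (2 * √((k : ℝ) + 1))) := by
        gcongr
        linarith
    _ = 4 := by field_simp; norm_num

theorem conv_le (k : ℕ) : ∑ i ∈ Finset.range (k + 1), w i * w (k - i) ≤ 1 := by
  match k with
  | 0 => simp [w]
  | 1 =>
    simp [Finset.sum_range_succ, w]
    norm_num
  | (n + 2) =>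
    rw [Finset.sum_range_succ, Finset.sum_range_succ']
    have hmid : ∑ i ∈ Finset.range (n + 1), w (i + 1) * w (n + 2 - (i + 1)) ≤ 4 / 9 := by
      have h1 : ∀ i ∈ Finset.range (n + 1), w (i + 1) * w (n + 2 - (i + 1)) =
          (1 / 9) * (1 / √(((i : ℝ) + 1) * (((n + 1 : ℕ) : ℝ) - i))) := by
        intro i hi
        have hin : i < n + 1 := Finset.mem_range.1 hi
        have e1 : n + 2 - (i + 1) = n + 1 - i := by omega
        have e2 : n + 1 - i ≠ 0 := by omega
        have e3 : ((n + 1 - i : ℕ) : ℝ) = ((n + 1 : ℕ) : ℝ) - i := by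
          rw [Nat.cast_sub (by omega)]
        unfold w
        rw [e1, if_neg (by omega), if_neg e2, e3, Real.sqrt_mul (by positivity)]
        push_cast
        rw [div_mul_div_comm]
        rw [show (3 * √((i : ℝ) + 1)) * (3 * √((n : ℝ) + 1 - i)) =
          9 * (√((i : ℝ) + 1) * √((n : ℝ) + 1 - i)) by ring]
        rw [one_div_mul_one_div_rev] 
        ring
      rw [Finset.sum_congr rfl h1, ← Finset.mul_sum]
      have := interior_sum (n + 1)
      linarith
    have hend : w (n + 2) ≤ 1 / 4 := by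
      unfold w
      rw [if_neg (by omega)]
      have h2 : (4 / 3 : ℝ) ≤ √((n + 2 : ℕ) : ℝ) := by
        apply Real.le_sqrt_of_sq_le
        push_cast
        have : (0 : ℝ) ≤ n := Nat.cast_nonneg n
        nlinarith
      rw [div_le_div_iff₀ (by positivity) (by norm_num)]
      linarith
    have h0 : w 0 = 1 := by simp [w]
    simp only [Nat.sub_zero, Nat.sub_self, h0, one_mul, mul_one]
    linarith

theorem weight_sum_sq {d : ℕ} (X : Finset (Fin d → ℕ)) :
    (∑ x ∈ X, ∏ i, w (x i)) ^ 2 ≤ (X + X).card := by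
  classical
  have hz : ∀ z : Fin d → ℕ, ∑ p ∈ (X ×ˢ X).filter (fun p => p.1 + p.2 = z),
      (∏ i, w (p.1 i)) * (∏ i, w (p.2 i)) ≤ 1 := by
    intro z
    have h1 : ∑ p ∈ (X ×ˢ X).filter (fun p => p.1 + p.2 = z),
        (∏ i, w (p.1 i)) * (∏ i, w (p.2 i)) ≤
        ∑ x ∈ Fintype.piFinset (fun i => Finset.range (z i + 1)), ∏ i, (w (x i) * w (z i - x i)) := by
      have hinj : Set.InjOn (fun p : (Fin d → ℕ) × (Fin d → ℕ) => p.1)
          ((X ×ˢ X).filter (fun p => p.1 + p.2 = z) : Finset _) := by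
        rintro ⟨a, b⟩ hab ⟨a', b'⟩ hab' h
        simp only [Finset.coe_filter, Set.mem_setOf_eq] at hab hab'
        simp only at h
        subst h
        have := hab.2.trans hab'.2.symm
        rw [Prod.mk.injEq]
        exact ⟨rfl, add_left_cancel this⟩
      calc _ = ∑ p ∈ (X ×ˢ X).filter (fun p => p.1 + p.2 = z),
            (fun x : Fin d → ℕ => ∏ i, (w (x i) * w (z i - x i))) p.1 := by
            apply Finset.sum_congr rfl
            intro p hp
            have hp2 := (Finset.mem_filter.1 hp).2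
            rw [← Finset.prod_mul_distrib]
            apply Finset.prod_congr rfl
            intro i _
            have : z i - p.1 i = p.2 i := by
              rw [← hp2]; simp
            rw [this]
        _ = ∑ x ∈ ((X ×ˢ X).filter (fun p => p.1 + p.2 = z)).image (fun p => p.1),
              ∏ i, (w (x i) * w (z i - x i)) := by
            rw [Finset.sum_image hinj]
        _ ≤ _ := by
            apply Finset.sum_le_sum_of_subset_of_nonneg
            · intro x hx
              obtain ⟨p, hp, rfl⟩ := Finset.mem_image.1 hx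
              have hp2 := (Finset.mem_filter.1 hp).2
              rw [Fintype.mem_piFinset]
              intro i
              rw [Finset.mem_range, ← hp2]
              simp only [Pi.add_apply]
              omega
            · intro x _ _
              exact Finset.prod_nonneg fun i _ => mul_nonneg (w_pos _).le (w_pos _).le
    refine h1.trans ?_
    rw [← Finset.prod_univ_sum (fun i => Finset.range (z i + 1)) (fun i a => w a * w (z i - a))]
    apply Finset.prod_le_one
    · intro i _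
      exact Finset.sum_nonneg fun a _ => mul_nonneg (w_pos _).le (w_pos _).le
    · intro i _
      exact conv_le (z i)
  calc (∑ x ∈ X, ∏ i, w (x i)) ^ 2 = ∑ p ∈ X ×ˢ X, (∏ i, w (p.1 i)) * (∏ i, w (p.2 i)) := by
        rw [sq, Finset.sum_mul_sum, Finset.sum_product]
    _ = ∑ z ∈ X + X, ∑ p ∈ (X ×ˢ X).filter (fun p => p.1 + p.2 = z),
          (∏ i, w (p.1 i)) * (∏ i, w (p.2 i)) := by
        rw [Finset.sum_fiberwise_of_maps_to]
        rintro ⟨x, y⟩ hp
        rw [Finset.mem_product] at hp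
        exact Finset.add_mem_add hp.1 hp.2
    _ ≤ ∑ z ∈ X + X, (1 : ℝ) := Finset.sum_le_sum fun z _ => hz z
    _ = (X + X).card := by simp

end H375.Box
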